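import Pool.Agent.N309.PD.Cone

set_option autoImplicit false
set_option linter.unusedSectionVars false

open scoped InnerProductSpace InnerProduct ENNReal
open scoped Matrix

/-! Actions on totally ordered sets: components of cones and the kernel in degree one. -/

namespace Pool.Agent.V7H25.Asp

open Pool.Agent.W649.ZL Pool.Agent.N309.LO Pool.Agent.N309.PD

universe u v w z y

section
variable {G : Type u} [Group G] {X : Type y} [MulAction G X] [LinearOrder X]

/-- neighbours in the Cayley graph which both move the point `x₀` up -/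
def AdjX (x₀ : X) {ι : Type*} (s : ι → G) (g h : G) : Prop :=
  x₀ < g • x₀ ∧ x₀ < h • x₀ ∧ ∃ j, h = g * s j ∨ g = h * s j

theorem word_of_path (x₀ : X) {ι : Type*} (s : ι → G) {g h : G} (hh : x₀ < h • x₀)
    (p : Relation.ReflTransGen (AdjX x₀ s) g h) :
    ∃ u : List (ι × Bool), g * ev s u = h ∧ ∀ M N, u = M ++ N → x₀ < (g * ev s M) • x₀ := by
  induction p using Relation.ReflTransGen.head_induction_on with
  | refl =>
    refine ⟨[], by rw [ev_nil, mul_one], ?_⟩
    intro M N h
    obtain ⟨rfl, rfl⟩ := List.append_eq_nil_iff.1 h.symm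
    rwa [ev_nil, mul_one]
  | @head a c hab _ ih =>
    obtain ⟨u, hu1, hu2⟩ := ih
    obtain ⟨ha, _, j, hj⟩ := hab
    have key : ∀ b : Bool, a * cond b (s j) (s j)⁻¹ = c →
        ∃ u : List (ι × Bool), a * ev s u = h ∧ ∀ M N, u = M ++ N → x₀ < (a * ev s M) • x₀ := by
      intro b hb
      refine ⟨(j, b) :: u, by rw [ev_cons, ← mul_assoc, hb, hu1], ?_⟩
      intro M N hMN
      cases M with
      | nil => rwa [ev_nil, mul_one]
      | cons y M =>
        rw [List.cons_append, List.cons.injEq] at hMN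
        rw [← hMN.1, ev_cons, ← mul_assoc, hb]
        exact hu2 M N hMN.2
    rcases hj with hj | hj
    · exact key true hj.symm
    · apply key false
      rw [hj]
      exact mul_inv_cancel_right _ _

/-- the relation of two generators in the same component of the cone -/
theorem cone_relation (x₀ : X) {ι : Type*} [DecidableEq ι] [Fintype ι] (s : ι → G)
    (hpos : ∀ j, x₀ < s j • x₀)
    (χ : G →* ℂ) (a b : ι) (p : Relation.ReflTransGen (AdjX x₀ s) (s a) (s b)) :
    ∃ c : ι → MonoidAlgebra ℂ G,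
      ∑ x, c x * (MonoidAlgebra.single (s x) 1 - MonoidAlgebra.single 1 (χ (s x))) = 0 ∧
      (∀ x k, (c x).coeff k ≠ 0 → x₀ ≤ k • x₀) ∧
      (∀ x k, k • x₀ = x₀ → k ≠ 1 → (c x).coeff k = 0) ∧
      ∀ x, (c x).coeff 1 = (if a = x then χ (s a)⁻¹ else 0) - (if b = x then χ (s b)⁻¹ else 0) := by
  obtain ⟨u, hu1, hu2⟩ := word_of_path x₀ s (hpos b) p
  set r : List (ι × Bool) := (a, true) :: (u ++ [(b, false)]) with hr
  have hb1 : ev s [(b, false)] = (s b)⁻¹ := by
    rw [ev_cons, ev_nil, mul_one]
    rfl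
  have hr1 : ev s r = 1 := by
    rw [hr, ev_cons, ev_append, hb1, ← mul_assoc]
    change s a * ev s u * (s b)⁻¹ = 1
    rw [hu1, mul_inv_cancel]
  -- all prefixes have the value one or are in the cone
  have hpre : ∀ M N, r = M ++ N → ev s M = 1 ∨ x₀ < ev s M • x₀ := by
    intro M N h
    cases M with
    | nil => exact Or.inl rfl
    | cons y M =>
      rw [hr, List.cons_append, List.cons.injEq] at h
      rcases List.eq_nil_or_concat N with hN | ⟨N', z, hN⟩
      · subst hN
        rw [List.append_nil] at h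
        left
        rw [← h.1, ← h.2]
        exact hr1
      · rw [hN] at h
        have h2 : u ++ [(b, false)] = (M ++ N') ++ [z] := by
          rw [h.2]
          simp
        have h3 := (List.append_inj' h2 rfl).1
        right
        rw [← h.1, ev_cons]
        exact hu2 M N' h3
  have hval : ∀ x k, (fox s χ x r).coeff k ≠ 0 → k = 1 ∨ x₀ < k • x₀ := by
    intro x k hk
    obtain ⟨M, N, h⟩ := fox_supp s χ x r k hk
    rcases h with ⟨h1, h2⟩ | ⟨h1, h2⟩
    · rw [h2]
      exact hpre M _ h1
    · rw [h2]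
      apply hpre (M ++ [(x, false)]) N
      rw [h1]
      simp
  refine ⟨fun x => fox s χ x r, ?_, ?_, ?_, ?_⟩
  · rw [fox_sum, hr1, map_one, sub_self]
  · intro x k hk
    rcases hval x k hk with h | h
    · rw [h, one_smul]
    · exact h.le
  · intro x k hk hk1
    by_contra hne
    rcases hval x k hne with h | h
    · exact hk1 h
    · exact h.ne hk.symm
  · intro x
    have h0 : (fox s χ x u).coeff ((s a)⁻¹ * 1) = 0 := by
      by_contra hne
      rw [mul_one] at hne
      obtain ⟨M, N, h⟩ := fox_supp s χ x u _ hne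
      rcases h with ⟨h1, h2⟩ | ⟨h1, h2⟩
      · have h3 := hu2 M _ h1
        rw [← h2, mul_inv_cancel, one_smul] at h3
        exact lt_irrefl _ h3
      · have h3 := hu2 (M ++ [(x, false)]) N (by rw [h1]; simp)
        rw [← h2, mul_inv_cancel, one_smul] at h3
        exact lt_irrefl _ h3
    have hev : ev s u * (s b)⁻¹ = (s a)⁻¹ := by
      rw [← hu1, mul_inv_rev, mul_inv_cancel_left]
    change (fox s χ x ((a, true) :: (u ++ [(b, false)]))).coeff 1 = _
    rw [fox, MonoidAlgebra.coeff_add, Finsupp.add_apply, single_mul_coeff]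
    have e1 : (cond (a, true).2 (s (a, true).1) (s (a, true).1)⁻¹)⁻¹ * 1 = (s a)⁻¹ * 1 := rfl
    rw [e1, fox_append, MonoidAlgebra.coeff_add, Finsupp.add_apply,
      MonoidAlgebra.coeff_smul_apply, h0, smul_zero, add_zero, single_mul_coeff, ev_append, hb1,
      hev]
    have e2 : fox s χ x [(b, false)] = if b = x then
        MonoidAlgebra.single (s x)⁻¹ (-(χ (s x)⁻¹)) else 0 := by
      rw [fox, fox, mul_zero, zero_add, ev_nil, map_one, mul_one]
      rfl
    rw [e2]
    have e3 : (ev s u)⁻¹ * ((s a)⁻¹ * 1) = (s b)⁻¹ := by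
      rw [mul_one, ← hu1, mul_inv_rev]
    rw [e3]
    by_cases h1 : a = x
    · by_cases h2 : b = x
      · subst h1
        subst h2
        rw [if_pos rfl, if_pos rfl, if_pos rfl]
        simp only [cond_true, MonoidAlgebra.coeff_single, Finsupp.single_eq_same]
        ring
      · rw [if_pos h1, if_neg h2, if_neg h2]
        subst h1
        simp only [cond_true, MonoidAlgebra.coeff_single, Finsupp.single_eq_same,
          MonoidAlgebra.coeff_zero, Finsupp.zero_apply, if_true]
        ring
    · by_cases h2 : b = x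
      · rw [if_neg h1, if_pos h2, if_neg h1, if_pos h2]
        subst h2
        rw [MonoidAlgebra.coeff_single, Finsupp.single_eq_same, MonoidAlgebra.coeff_zero,
          Finsupp.zero_apply]
        ring
      · rw [if_neg h1, if_neg h2, if_neg h1, if_neg h2]
        simp only [MonoidAlgebra.coeff_zero, Finsupp.zero_apply]
        ring

end

section main
variable {G : Type u} [Group G] {X : Type y} [MulAction G X] [LinearOrder X]
  {J : Type v} [Fintype J] [DecidableEq J]
  {L : Type w} [Fintype L] [DecidableEq L] {M : Type z} [Fintype M] [DecidableEq M]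

/-- the level inequality for matrices with terms in the closed cone, the terms which fix the point
being multiples of the identity -/
theorem pos_leX (hinv : OrdInv G X) (x₀ : X) (D : Matrix L J (MonoidAlgebra ℂ G))
    (hD : ∀ l j k, (D l j).coeff k ≠ 0 → x₀ ≤ k • x₀)
    (hD1 : ∀ l j k, k • x₀ = x₀ → k ≠ 1 → (D l j).coeff k = 0) :
    vd (LinearMap.ker (opM D : EE G J →ₗ[ℂ] EE G L))
      ≤ vd (LinearMap.ker (opM (topM D) : EE G J →ₗ[ℂ] EE G L)) := by
  classical
  apply level_le hinv (fun _ => x₀) (fun _ => x₀) _ _ (opM_eqv _) (opM_eqv _)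
  · intro j t i hne
    rw [opM_dl, inv_one, mul_one] at hne
    exact hD _ _ _ hne
  · intro j t i he
    rw [opM_dl, opM_dl, inv_one, mul_one]
    change (MonoidAlgebra.single (1 : G) ((D i j).coeff 1)).coeff t = _
    by_cases h : t = 1
    · rw [h, MonoidAlgebra.coeff_single, Finsupp.single_eq_same]
    · rw [MonoidAlgebra.coeff_single, Finsupp.single_apply, if_neg (fun h' => h h'.symm),
        hD1 _ _ _ he.symm h]
  · intro j t i he
    rw [opM_dl, inv_one, mul_one]
    change (MonoidAlgebra.single (1 : G) ((D i j).coeff 1)).coeff t = _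
    rw [MonoidAlgebra.coeff_single, Finsupp.single_apply, if_neg]
    intro h
    apply he
    rw [← h, one_smul]

/-- degree one, by the components of the cone -/
theorem ker_one_coneX (hinv : OrdInv G X) (x₀ : X)
    (A : Matrix L J (MonoidAlgebra ℂ G)) (B : Matrix M L (MonoidAlgebra ℂ G))
    (φ : (J → MonoidAlgebra ℂ G) →ₗ[ℂ] ℂ) (hφ : Aug φ)
    (hA : ∀ x, (∃ y, y ᵥ* A = x) ↔ φ x = 0)
    (hB : ∀ x, x ᵥ* A = 0 → ∃ y, y ᵥ* B = x)
    {ι : Type*} [Fintype ι] [DecidableEq ι] (s : ι → G) (hpos : ∀ j, x₀ < s j • x₀)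
    (hs : Subgroup.closure (Set.range s) = ⊤) (T : Finset ι)
    (hT : ∀ a, ∃ t ∈ T, Relation.ReflTransGen (AdjX x₀ s) (s a) (s t)) :
    vd (LinearMap.ker (opM B : EE G L →ₗ[ℂ] EE G M))
      ≤ (Fintype.card J : ℝ) + T.card - 1 := by
  classical
  obtain ⟨χ, hχ⟩ := hφ.exists_char
  choose t htT htp using hT
  choose c hc1 hc2 hc2' hc3 using fun a => cone_relation x₀ s hpos χ a (t a) (htp a)
  -- a coordinate on which the functional is nonzero
  obtain ⟨j0, hj0⟩ : ∃ j, φ (Pi.single j 1) ≠ 0 := by
    by_contra hcon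
    push Not at hcon
    apply hφ.ne
    apply LinearMap.ext
    intro x
    rw [phi_eq χ hχ x]
    apply Finset.sum_eq_zero
    intro j _
    rw [hcon, mul_zero]
  obtain ⟨XY, hXY1, hXY2⟩ := exists_lift A B φ χ hχ hA hB s hs j0 hj0
  set R : Matrix ι (ι ⊕ {j : J // j ≠ j0}) (MonoidAlgebra ℂ G) :=
    fun a k => Sum.elim (c a) (fun _ => 0) k with hR
  have hRB : ∀ F, opM B F = 0 → opM R (opM XY F) = 0 := by
    intro F hF
    rw [opM_eq_zero]
    intro a
    rw [pr_opM]
    exact hXY1 (c a) (hc1 a) F hF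
  have h1 := rank_nullity (opM XY) (opM_eqv XY) (inv_ker (opM B) (opM_eqv B))
    (ContinuousLinearMap.isClosed_ker (opM B))
  have h2 : LinearMap.ker (opM B : EE G L →ₗ[ℂ] EE G M)
      ⊓ LinearMap.ker (opM XY : EE G L →ₗ[ℂ] EE G (ι ⊕ {j : J // j ≠ j0})) = ⊥ := by
    rw [eq_bot_iff]
    rintro F ⟨hF1, hF2⟩
    rw [Submodule.mem_bot]
    exact hXY2 F hF1 hF2
  rw [h2, vd_bot, zero_add] at h1
  rw [h1]
  have h3 := pos_leX hinv x₀ R (by
    intro a k g hg
    rcases k with x | j
    · exact hc2 a x g hg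
    · exact absurd rfl hg) (by
    intro a k g hg hg1
    rcases k with x | j
    · exact hc2' a x g hg hg1
    · rfl)
  set S : Finset (ι ⊕ {j : J // j ≠ j0}) := (Finset.univ.filter (fun a => a ∉ T)).map
    Function.Embedding.inl with hS
  have h4 := vd_ker_le (opM (topM R)) (opM_eqv _) S (by
    intro F hF hF2
    have h5 : ∀ k, k ∉ S → cmp k F = 0 := by
      intro k hk
      apply ext_unit
      intro x
      rw [cmp_apply, hF2 (x, k) hk]
      rfl
    have h6 : ∀ a ∈ T, cmp (Sum.inl a) F = 0 := by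
      intro a ha
      apply h5
      rw [hS, Finset.mem_map]
      rintro ⟨a', ha', he⟩
      have he' : a' = a := Sum.inl_injective he
      subst he'
      exact (Finset.mem_filter.1 ha').2 ha
    have h7 : ∀ a, a ∉ T → cmp (Sum.inl a) F = 0 := by
      intro a ha
      have hta : a ≠ t a := fun h => ha (h ▸ htT a)
      have h8 := (opM_eq_zero _ F).1 hF a
      unfold pr at h8
      rw [Fintype.sum_sum_type] at h8
      have h9 : ∑ j : {j : J // j ≠ j0}, Lam (topM R a (Sum.inr j)) (cmp (Sum.inr j) F) = 0 := by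
        apply Finset.sum_eq_zero
        intro j _
        change Lam (MonoidAlgebra.single (1 : G) 0) _ = 0
        rw [MonoidAlgebra.single_zero, map_zero]
        rfl
      rw [h9, add_zero, Finset.sum_eq_single a] at h8
      · have e1 : (R a (Sum.inl a)).coeff 1 = χ (s a)⁻¹ := by
          change (c a a).coeff 1 = _
          rw [hc3, if_pos rfl, if_neg (Ne.symm hta), sub_zero]
        change Lam (MonoidAlgebra.single (1 : G) ((R a (Sum.inl a)).coeff 1)) _ = 0 at h8
        rw [e1] at h8
        have e2 : (MonoidAlgebra.single (1 : G) (χ (s a)⁻¹) : MonoidAlgebra ℂ G)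
            = χ (s a)⁻¹ • (1 : MonoidAlgebra ℂ G) := by
          rw [MonoidAlgebra.one_def, MonoidAlgebra.smul_single, smul_eq_mul, mul_one]
        rw [e2, map_smul, map_one] at h8
        have h10 : χ (s a)⁻¹ • cmp (Sum.inl a) F = 0 := h8
        exact (smul_eq_zero.1 h10).resolve_left (chi_ne χ _)
      · intro x _ hx
        have e1 : (R a (Sum.inl x)).coeff 1 = (if a = x then χ (s a)⁻¹ else 0)
            - (if t a = x then χ (s (t a))⁻¹ else 0) := hc3 a x
        by_cases hx2 : t a = x
        · rw [← hx2, h6 _ (htT a), map_zero]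
        · rw [if_neg (Ne.symm hx), if_neg hx2, sub_zero] at e1
          change Lam (MonoidAlgebra.single (1 : G) ((R a (Sum.inl x)).coeff 1)) _ = 0
          rw [e1, MonoidAlgebra.single_zero, map_zero]
          rfl
      · intro h'
        exact absurd (Finset.mem_univ _) h'
    apply ext_cmp
    intro k
    rw [map_zero]
    rcases k with a | j
    · by_cases ha : a ∈ T
      · exact h6 a ha
      · exact h7 a ha
    · apply h5
      rw [hS, Finset.mem_map]
      rintro ⟨a', _, he⟩
      exact absurd he Sum.inl_ne_inr)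
  have h11 : (Fintype.card (ι ⊕ {j : J // j ≠ j0}) : ℝ) - S.card
      = (Fintype.card J : ℝ) + T.card - 1 := by
    have h8 : Fintype.card {j : J // j ≠ j0} + 1 = Fintype.card J := by
      have := Fintype.card_pos_iff.2 ⟨j0⟩
      rw [Fintype.card_subtype_compl, Fintype.card_subtype_eq]
      omega
    have h9 : S.card + T.card = Fintype.card ι := by
      rw [hS, Finset.card_map]
      have := Finset.card_filter_add_card_filter_not (s := (Finset.univ : Finset ι)) (fun a => a ∈ T)
      have e : (Finset.univ : Finset ι).filter (fun a => a ∈ T) = T := by ext a; simp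
      rw [e, Finset.card_univ] at this
      omega
    rw [Fintype.card_sum, Nat.cast_add, ← h8, ← h9]
    push_cast
    ring
  rw [← h11]
  refine (vd_mono ?_).trans (h3.trans h4)
  rintro _ ⟨F, hF, rfl⟩
  exact hRB F hF

/-- degree one, by the number of the generators -/
theorem ker_one_gen
    (A : Matrix L J (MonoidAlgebra ℂ G)) (B : Matrix M L (MonoidAlgebra ℂ G))
    (φ : (J → MonoidAlgebra ℂ G) →ₗ[ℂ] ℂ) (hφ : Aug φ)
    (hA : ∀ x, (∃ y, y ᵥ* A = x) ↔ φ x = 0)
    (hB : ∀ x, x ᵥ* A = 0 → ∃ y, y ᵥ* B = x)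
    {ι : Type*} [Fintype ι] [DecidableEq ι] (s : ι → G)
    (hs : Subgroup.closure (Set.range s) = ⊤) :
    vd (LinearMap.ker (opM B : EE G L →ₗ[ℂ] EE G M))
      ≤ (Fintype.card J : ℝ) + Fintype.card ι - 1 := by
  classical
  obtain ⟨χ, hχ⟩ := hφ.exists_char
  obtain ⟨j0, hj0⟩ : ∃ j, φ (Pi.single j 1) ≠ 0 := by
    by_contra hcon
    push Not at hcon
    apply hφ.ne
    apply LinearMap.ext
    intro x
    rw [phi_eq χ hχ x]
    apply Finset.sum_eq_zero
    intro j _
    rw [hcon, mul_zero]
  obtain ⟨XY, hXY1, hXY2⟩ := exists_lift A B φ χ hχ hA hB s hs j0 hj0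
  have h1 := rank_nullity (opM XY) (opM_eqv XY) (inv_ker (opM B) (opM_eqv B))
    (ContinuousLinearMap.isClosed_ker (opM B))
  have h2 : LinearMap.ker (opM B : EE G L →ₗ[ℂ] EE G M)
      ⊓ LinearMap.ker (opM XY : EE G L →ₗ[ℂ] EE G (ι ⊕ {j : J // j ≠ j0})) = ⊥ := by
    rw [eq_bot_iff]
    rintro F ⟨hF1, hF2⟩
    rw [Submodule.mem_bot]
    exact hXY2 F hF1 hF2
  rw [h2, vd_bot, zero_add] at h1
  rw [h1]
  have h11 : (Fintype.card (ι ⊕ {j : J // j ≠ j0}) : ℝ)
      = (Fintype.card J : ℝ) + Fintype.card ι - 1 := by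
    have h8 : Fintype.card {j : J // j ≠ j0} + 1 = Fintype.card J := by
      have := Fintype.card_pos_iff.2 ⟨j0⟩
      rw [Fintype.card_subtype_compl, Fintype.card_subtype_eq]
      omega
    rw [Fintype.card_sum, Nat.cast_add, ← h8]
    push_cast
    ring
  rw [← h11, ← vd_top (G := G) (J := ι ⊕ {j : J // j ≠ j0})]
  exact vd_mono le_top

end main

end Pool.Agent.V7H25.Asp
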