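import Pool.Agent.V7H25.Asp.Rk

set_option autoImplicit false
set_option linter.unusedSectionVars false

/-! The definitions and the proof of the theorem on asphericity and ordered actions. -/

namespace Pool.Agent.V7H25.Asp

open Pool.Agent.R655.LI
open Pool.Agent.W649.ZL Pool.Agent.N309.LO
open Pool.Agent.N309.PD (Lam Lam_apply Lam_eq NZ nz_left)

/-- `G` acts on a totally ordered set `X`, preserving the order, and `G` is generated by a finite
family `s` whose members move the point `x₀` up, such that at most `n` classes of `s` remain if one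
joins elements of the cone `{g | x₀ < g x₀}` which are neighbours in the Cayley graph. -/
def OrderedBy (G : Type) [Group G] (n : ℕ) : Prop :=
  ∃ (X : Type) (_ : LinearOrder X) (_ : MulAction G X) (x₀ : X) (m : ℕ) (s : Fin m → G)
    (T : Finset (Fin m)),
    (∀ (g : G) (a b : X), a ≤ b → g • a ≤ g • b) ∧ (∀ j, x₀ < s j • x₀) ∧
    Subgroup.closure (Set.range s) = ⊤ ∧ T.card ≤ n ∧
    ∀ a, ∃ t ∈ T, Relation.ReflTransGen
      (fun g h => x₀ < g • x₀ ∧ x₀ < h • x₀ ∧ ∃ j, h = g * s j ∨ g = h * s j) (s a) (s t)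

/-- `G` has a total order which is invariant under left multiplication. -/
def LeftOrderable (G : Type) [Group G] : Prop :=
  ∃ _ : LinearOrder G, ∀ g a b : G, a ≤ b → g * a ≤ g * b

/-- No nonzero element of the group algebra `ℂ[G]` annihilates a nonzero square summable
function. -/
def NoZeroDiv (G : Type) [Group G] : Prop :=
  ∀ α : G →₀ ℂ, α ≠ 0 → ∀ f : lp (fun _ : G => ℂ) 2,
    (∀ g, ∑ k ∈ α.support, α k * f (k⁻¹ * g) = 0) → f = 0

/-- `G` is generated by `n` elements. -/
def GenBy (G : Type) [Group G] (n : ℕ) : Prop :=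
  ∃ s : Fin n → G, Subgroup.closure (Set.range s) = ⊤

theorem nz_of {G : Type} [Group G] (h : NoZeroDiv G) : NZ G := by
  intro α hα F hF
  obtain ⟨f, rfl⟩ := toU_surj F
  have h1 : f = 0 := by
    apply h α.coeff (fun h2 => hα (MonoidAlgebra.coeff_eq_zero.1 h2)) f
    intro g
    have h2 := Lam_apply α (toU f) g
    rw [hF] at h2
    exact h2.symm
  rw [h1]
  rfl

theorem noZero_of_left {G : Type} [Group G] (h : LeftOrderable G) : NoZeroDiv G := by
  obtain ⟨inst, hinv⟩ := h
  intro α hα f hf
  have h1 := nz_left hinv (MonoidAlgebra.ofCoeff α) (by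
    intro h2
    exact hα (congrArg MonoidAlgebra.coeff h2)) (toU f) (by
    ext ⟨x, ⟨⟩⟩
    rw [Lam_apply]
    exact hf x)
  ext g
  have h2 := congrArg (fun F : EE G Unit => F (g, ())) h1
  exact h2

theorem part_one (K : Cx) (hK : K.IsFin) (n : ℕ) (h : OrderedBy K.Pi n)
    (hc : Nat.card K.R + n ≤ Nat.card K.V) : Asph K := by
  classical
  obtain ⟨X, _, _, x₀, m, s, T, hinv, hpos, hs, hTn, hT⟩ := h
  obtain ⟨h1, h2⟩ := hK
  have := Fintype.ofFinite K.V
  have := Fintype.ofFinite K.R
  rw [Nat.card_eq_fintype_card, Nat.card_eq_fintype_card] at hc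
  exact asph_cone K hinv x₀ s hpos hs T hT (by omega)

theorem part_two (K L : Cx) (i : Sub K L) (hL : L.Contractible) (hK : K.IsFin) :
    Nat.card K.V = Nat.card K.R + betti K := by
  obtain ⟨h1, h2⟩ := hK
  have := Fintype.ofFinite K.V
  have := Fintype.ofFinite K.R
  rw [Nat.card_eq_fintype_card, Nat.card_eq_fintype_card]
  exact card_eq K (bdry_inj_sub i hL)

theorem part_three (K L : Cx) (i : Sub K L) (hL : L.Contractible) (hK : K.IsFin)
    (h : NoZeroDiv K.Pi) (hg : GenBy K.Pi (betti K + 1)) : Asph K := by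
  classical
  have hc := part_two K L i hL hK
  obtain ⟨h1, h2⟩ := hK
  have := Fintype.ofFinite K.V
  have := Fintype.ofFinite K.R
  rw [Nat.card_eq_fintype_card, Nat.card_eq_fintype_card] at hc
  obtain ⟨s, hs⟩ := hg
  by_cases hi : Function.Injective (FreeGroup.lift s)
  · have := free_rank K s hs hi
    rw [Fintype.card_fin] at this
    omega
  · exact asph_gen2 K (nz_of h) s hs hi (by rw [Fintype.card_fin]; omega)

end Pool.Agent.V7H25.Asp
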