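import Pool.Agent.R655.LI.Howie
import Pool.Agent.N309.PD.Cone

set_option autoImplicit false
set_option linter.unusedSectionVars false

/-!
# The chain complex of the universal covering of a 2-complex with one vertex is exact in degree one
-/

namespace Pool.Agent.V7H25.Asp

open Pool.Agent.R655.LI
open Pool.Agent.Helper777.Prof (Wr mag mag_m)
open scoped Matrix

section aff
variable {A G M : Type} [Ring A] [Group G] [AddCommGroup M] [Module A M]

/-- The affine group of a module. -/
@[ext] structure Aff (τ : G →* A) (M : Type) where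
  /-- the translation part -/
  x : M
  /-- the group element -/
  g : G

namespace Aff
variable {τ : G →* A}

noncomputable instance : Mul (Aff τ M) := ⟨fun a b => ⟨a.x + τ a.g • b.x, a.g * b.g⟩⟩
noncomputable instance : One (Aff τ M) := ⟨⟨0, 1⟩⟩
noncomputable instance : Inv (Aff τ M) := ⟨fun a => ⟨-(τ a.g⁻¹ • a.x), a.g⁻¹⟩⟩

theorem mul_x (a b : Aff τ M) : (a * b).x = a.x + τ a.g • b.x := rfl
theorem mul_g (a b : Aff τ M) : (a * b).g = a.g * b.g := rfl
theorem one_x : (1 : Aff τ M).x = 0 := rfl
theorem one_g : (1 : Aff τ M).g = 1 := rfl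
theorem inv_x (a : Aff τ M) : (a⁻¹).x = -(τ a.g⁻¹ • a.x) := rfl
theorem inv_g (a : Aff τ M) : (a⁻¹).g = a.g⁻¹ := rfl

noncomputable instance : Group (Aff τ M) :=
  Group.ofLeftAxioms
    (by
      intro a b c
      ext1
      · simp only [mul_x, mul_g, map_mul, smul_add, mul_smul, add_assoc]
      · simp only [mul_g, mul_assoc])
    (by
      intro a
      ext1
      · simp only [mul_x, one_x, one_g, map_one, one_smul, zero_add]
      · simp only [mul_g, one_g, one_mul])
    (by
      intro a
      ext1
      · simp only [mul_x, inv_x, inv_g, one_x, neg_add_cancel]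
      · simp only [mul_g, inv_g, one_g, inv_mul_cancel])

end Aff
end aff

variable (K : Cx)

/-- The matrix of the boundary operator from degree two to degree one, with complex coefficients. -/
noncomputable def rowM : Matrix K.R K.V (MonoidAlgebra ℂ K.Pi) :=
  fun j v => cc ℂ K.Pi (fox K (K.r j) v)

/-- The matrix of the boundary operator from degree one to degree zero. -/
noncomputable def genM : Matrix K.V Unit (MonoidAlgebra ℂ K.Pi) :=
  fun v _ => MonoidAlgebra.single (PresentedGroup.of v) 1 - 1

theorem cc_single (g : K.Pi) (z : ℤ) :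
    cc ℂ K.Pi (MonoidAlgebra.single g z) = MonoidAlgebra.single g (z : ℂ) := by
  rw [cc, MonoidAlgebra.mapRingHom_single]
  rfl

/-- The module of the chains in degree one modulo the boundaries. -/
abbrev QM : Type := (K.V → MonoidAlgebra ℂ K.Pi) ⧸ Submodule.span (MonoidAlgebra ℂ K.Pi) (Set.range (rowM K))

/-- the action of the group on modules over the group algebra -/
noncomputable def tau : K.Pi →* MonoidAlgebra ℂ K.Pi := MonoidAlgebra.of ℂ K.Pi

theorem tau_apply (g : K.Pi) : tau K g = MonoidAlgebra.single g 1 := rfl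

/-- change of coefficients and passage to the quotient -/
noncomputable def toAff : Wr ℤ K.Pi K.V →* Aff (tau K) (QM K) where
  toFun w := ⟨Submodule.Quotient.mk (fun v => cc ℂ K.Pi (w.v v)), w.m⟩
  map_one' := by
    ext1
    · change Submodule.Quotient.mk (fun v => cc ℂ K.Pi ((0 : K.V → MonoidAlgebra ℤ K.Pi) v)) = 0
      have : (fun v => cc ℂ K.Pi ((0 : K.V → MonoidAlgebra ℤ K.Pi) v)) = 0 := by
        funext v
        exact map_zero _
      rw [this]
      exact Submodule.Quotient.mk_zero _
    · rfl
  map_mul' a b := by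
    ext1
    · change Submodule.Quotient.mk (fun v => cc ℂ K.Pi ((a.v + (MonoidAlgebra.of ℤ K.Pi a.m) • b.v) v))
        = Submodule.Quotient.mk (fun v => cc ℂ K.Pi (a.v v))
          + tau K a.m • Submodule.Quotient.mk (fun v => cc ℂ K.Pi (b.v v))
      rw [← Submodule.Quotient.mk_smul, ← Submodule.Quotient.mk_add]
      congr 1
      funext v
      change cc ℂ K.Pi (a.v v + MonoidAlgebra.of ℤ K.Pi a.m * b.v v)
        = cc ℂ K.Pi (a.v v) + tau K a.m * cc ℂ K.Pi (b.v v)
      rw [map_add, map_mul, MonoidAlgebra.of_apply, cc_single, Int.cast_one, tau_apply]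
    · rfl

open Classical in
/-- the values of the derivation at the generators -/
noncomputable def gens (v : K.V) : Aff (tau K) (QM K) :=
  ⟨Submodule.Quotient.mk (Pi.single v 1), PresentedGroup.of v⟩

theorem lift_gens (w : FreeGroup K.V) : FreeGroup.lift (gens K) w =
    ⟨Submodule.Quotient.mk (fun v => cc ℂ K.Pi (fox K w v)), PresentedGroup.mk (Set.range K.r) w⟩ := by
  classical
  have h : FreeGroup.lift (gens K) = (toAff K).comp (mag (PresentedGroup.mk (Set.range K.r))) := by
    ext1 v
    rw [FreeGroup.lift_apply_of, MonoidHom.comp_apply]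
    simp only [mag, FreeGroup.lift_apply_of]
    unfold gens
    ext1
    · change Submodule.Quotient.mk _ = Submodule.Quotient.mk (fun u => cc ℂ K.Pi
        ((Pi.single v (1 : MonoidAlgebra ℤ K.Pi) : K.V → MonoidAlgebra ℤ K.Pi) u))
      congr 1
      funext u
      by_cases hu : u = v
      · subst hu
        rw [Pi.single_eq_same, Pi.single_eq_same, map_one]
      · rw [Pi.single_eq_of_ne hu, Pi.single_eq_of_ne hu, map_zero]
    · rfl
  rw [h, MonoidHom.comp_apply]
  ext1
  · change Submodule.Quotient.mk (fun v => cc ℂ K.Pi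
      ((mag (PresentedGroup.mk (Set.range K.r)) w).v v)) = _
    unfold fox
    congr 1
  · exact mag_m _ w

/-- the derivation of the group -/
noncomputable def theta : K.Pi →* Aff (tau K) (QM K) :=
  PresentedGroup.toGroup (f := gens K) (by
    rintro _ ⟨j, rfl⟩
    rw [lift_gens]
    ext1
    · change Submodule.Quotient.mk (rowM K j) = 0
      rw [Submodule.Quotient.mk_eq_zero]
      exact Submodule.subset_span ⟨j, rfl⟩
    · exact PresentedGroup.one_of_mem ⟨j, rfl⟩)

theorem theta_of (v : K.V) : theta K (PresentedGroup.of v) = gens K v :=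
  PresentedGroup.toGroup.of _

theorem theta_g (g : K.Pi) : (theta K g).g = g := by
  have h : (⟨⟨fun w : Aff (tau K) (QM K) => w.g, rfl⟩, fun _ _ => rfl⟩ :
      Aff (tau K) (QM K) →* K.Pi).comp (theta K) = MonoidHom.id _ := by
    apply PresentedGroup.ext
    intro v
    change (theta K (PresentedGroup.of v)).g = _
    rw [theta_of]
    rfl
  exact DFunLike.congr_fun h g

theorem theta_mul (g h : K.Pi) :
    (theta K (g * h)).x = (theta K g).x + tau K g • (theta K h).x := by
  rw [map_mul, Aff.mul_x, theta_g]

/-- the derivation, extended to the group algebra -/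
noncomputable def Del : MonoidAlgebra ℂ K.Pi →+ QM K :=
  (Finsupp.liftAddHom fun g : K.Pi =>
    { toFun := fun c : ℂ => (MonoidAlgebra.single (1 : K.Pi) c : MonoidAlgebra ℂ K.Pi) • (theta K g).x
      map_zero' := by rw [MonoidAlgebra.single_zero, zero_smul]
      map_add' := fun a b => by rw [MonoidAlgebra.single_add, add_smul] }).comp
    (MonoidAlgebra.coeffAddEquiv : MonoidAlgebra ℂ K.Pi ≃+ (K.Pi →₀ ℂ)).toAddMonoidHom

theorem Del_single (g : K.Pi) (c : ℂ) : Del K (MonoidAlgebra.single g c) =
    (MonoidAlgebra.single (1 : K.Pi) c : MonoidAlgebra ℂ K.Pi) • (theta K g).x := by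
  change Finsupp.liftAddHom _ (Finsupp.single g c) = _
  rw [Finsupp.liftAddHom_apply_single]
  rfl

theorem Del_mul (x : MonoidAlgebra ℂ K.Pi) (h : K.Pi) :
    Del K (x * (MonoidAlgebra.single h 1 - 1)) = x • (theta K h).x := by
  induction x using MonoidAlgebra.induction_linear with
  | zero => rw [zero_mul, map_zero, zero_smul]
  | add a b ha hb => rw [add_mul, map_add, ha, hb, add_smul]
  | single g c =>
    rw [mul_sub, mul_one, MonoidAlgebra.single_mul_single, mul_one, map_sub, Del_single, Del_single,
      ← smul_sub, theta_mul, add_sub_cancel_left, smul_smul, tau_apply,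
      MonoidAlgebra.single_mul_single, one_mul, mul_one]

/-- **Exactness in degree one.** -/
theorem fox_exact [Fintype K.V] [Fintype K.R] (x : K.V → MonoidAlgebra ℂ K.Pi)
    (hx : x ᵥ* genM K = 0) : ∃ y, y ᵥ* rowM K = x := by
  classical
  have h1 : (Submodule.Quotient.mk x : QM K) = 0 := by
    have h2 := congrArg (Del K) (congrFun hx ())
    change Del K (∑ v, x v * genM K v ()) = Del K 0 at h2
    rw [map_sum, map_zero] at h2
    rw [← h2]
    have h3 : x = ∑ v, x v • (Pi.single v (1 : MonoidAlgebra ℂ K.Pi) :
        K.V → MonoidAlgebra ℂ K.Pi) := by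
      funext u
      rw [Finset.sum_apply, Finset.sum_eq_single u]
      · rw [Pi.smul_apply, Pi.single_eq_same, smul_eq_mul, mul_one]
      · intro v _ hv
        rw [Pi.smul_apply, Pi.single_eq_of_ne hv.symm, smul_zero]
      · intro h
        exact absurd (Finset.mem_univ _) h
    conv_lhs => rw [h3]
    change (Submodule.mkQ _) _ = _
    rw [map_sum]
    refine Finset.sum_congr rfl fun v _ => ?_
    rw [map_smul]
    unfold genM
    rw [Del_mul, theta_of]
    unfold gens
    congr 1
  rw [Submodule.Quotient.mk_eq_zero] at h1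
  obtain ⟨y, hy⟩ := (Submodule.mem_span_range_iff_exists_fun (MonoidAlgebra ℂ K.Pi)
    (v := fun j : K.R => (rowM K j : K.V → MonoidAlgebra ℂ K.Pi))).1 h1
  refine ⟨y, ?_⟩
  rw [← hy]
  funext v
  rw [Finset.sum_apply]
  rfl

end Pool.Agent.V7H25.Asp
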