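import Pool.Agent.V7H25.Asp.Fx
import Pool.Agent.V7H25.Asp.Cn

set_option autoImplicit false
set_option linter.unusedSectionVars false

open scoped InnerProductSpace InnerProduct ENNReal
open scoped Matrix

/-! Asphericity from the square summable kernel in degree one. -/

namespace Pool.Agent.V7H25.Asp

open Pool.Agent.R655.LI
open Pool.Agent.W649.ZL Pool.Agent.N309.LO
open Pool.Agent.N309.PD (Lam Lam_dl Lam_injective sig sig_mul sig_sig sig_zero sig_sum cmp inj cmp_inj
  ext_cmp pr opM adjM opM_adj opM_eqv cmp_opM gsm Aug chi chi_single mem_ideal NZ ker_one)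

universe u v w z y

section gen
variable {G : Type u} [Group G] {I : Type v} [Fintype I] [DecidableEq I]
  {J : Type w} [Fintype J] [DecidableEq J]

/-- the kernel of the adjoint -/
theorem ker_adj_bot (B : Matrix I J (MonoidAlgebra ℂ G)) (t : ℕ)
    (hv : vd (LinearMap.ker (opM B : EE G J →ₗ[ℂ] EE G I)) ≤ t)
    (hc : Fintype.card I + t ≤ Fintype.card J) (F : EE G I) (hF : opM (adjM B) F = 0) : F = 0 := by
  have h1 := ker_add_range (opM B) (opM_eqv B)
  have h2 := vd_range_adjoint (opM B) (opM_eqv B)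
  rw [opM_adj] at h2
  have h3 := ker_add_range (opM (adjM B)) (opM_eqv (adjM B))
  have h4 : (Fintype.card I : ℝ) + t ≤ Fintype.card J := by exact_mod_cast hc
  have h5 : vd (LinearMap.ker (opM (adjM B) : EE G I →ₗ[ℂ] EE G J)) ≤ 0 := by
    linarith
  have h6 := injective_of_vd_eq_zero _ (opM_eqv (adjM B)) h5
  exact h6 (by rw [hF, map_zero])

end gen

variable (K : Cx)

theorem cc_inj : Function.Injective (cc ℂ K.Pi) := by
  intro a b h
  apply MonoidAlgebra.coeff_injective
  ext g
  have h1 := congrArg (fun x : MonoidAlgebra ℂ K.Pi => x.coeff g) h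
  have h2 : ∀ x : MonoidAlgebra ℤ K.Pi, (cc ℂ K.Pi x).coeff g = ((x.coeff g : ℤ) : ℂ) := by
    intro x
    rfl
  simp only [h2] at h1
  exact_mod_cast h1

/-- asphericity from the injectivity of the operator in degree two -/
theorem asph_of_inj [Fintype K.V] [DecidableEq K.V] [Fintype K.R] [DecidableEq K.R]
    (h : ∀ F : EE K.Pi K.R, opM (adjM (rowM K)) F = 0 → F = 0) : Asph K := by
  unfold Asph
  rw [injective_iff_map_eq_zero]
  intro y hy
  have h1 : ∀ v, ∑ j, cc ℂ K.Pi (y j) * rowM K j v = 0 := by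
    intro v
    have h2 := congrArg (cc ℂ K.Pi) (congrFun hy v)
    rw [Finsupp.linearCombination_apply, Finsupp.sum_fintype _ _
      (fun i => zero_smul (MonoidAlgebra ℤ K.Pi) (fox K (K.r i))), Finset.sum_apply, map_sum] at h2
    have h3 : cc ℂ K.Pi ((0 : K.V → MonoidAlgebra ℤ K.Pi) v) = 0 := map_zero _
    rw [h3] at h2
    rw [← h2]
    refine Finset.sum_congr rfl fun j _ => ?_
    change _ = cc ℂ K.Pi (y j * fox K (K.r j) v)
    rw [map_mul]
    rfl
  set F : EE K.Pi K.R := ∑ j, inj j (Lam (sig (cc ℂ K.Pi (y j))) (dl (1, ()))) with hF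
  have h4 : ∀ j, cmp j F = Lam (sig (cc ℂ K.Pi (y j))) (dl (1, ())) := by
    intro j
    rw [hF, map_sum, Finset.sum_eq_single j]
    · rw [cmp_inj, if_pos rfl]
    · intro i _ hi
      rw [cmp_inj, if_neg hi.symm]
    · intro hj
      exact absurd (Finset.mem_univ _) hj
  have h5 : opM (adjM (rowM K)) F = 0 := by
    apply ext_cmp
    intro v
    rw [cmp_opM, map_zero]
    unfold pr
    have h6 : ∀ j, Lam (adjM (rowM K) v j) (cmp j F)
        = Lam (sig (cc ℂ K.Pi (y j) * rowM K j v)) (dl (1, ())) := by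
      intro j
      rw [h4, sig_mul, map_mul]
      rfl
    rw [Finset.sum_congr rfl fun j _ => h6 j]
    have h7 : (Lam (∑ j, sig (cc ℂ K.Pi (y j) * rowM K j v)) : EE K.Pi Unit →L[ℂ] EE K.Pi Unit)
        = ∑ j, Lam (sig (cc ℂ K.Pi (y j) * rowM K j v)) := map_sum _ _ _
    rw [← sig_sum, h1, sig_zero, map_zero] at h7
    rw [← _root_.sum_apply, ← h7]
    rfl
  have h8 := h F h5
  ext1 j
  have h9 : Lam (sig (cc ℂ K.Pi (y j))) (dl (1, ())) = 0 := by
    rw [← h4, h8, map_zero]
  have h10 : sig (cc ℂ K.Pi (y j)) = 0 := by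
    apply MonoidAlgebra.coeff_injective
    ext g
    have h11 := Lam_dl (sig (cc ℂ K.Pi (y j))) 1 g
    rw [h9, inv_one, mul_one] at h11
    exact h11.symm
  have h12 : cc ℂ K.Pi (y j) = 0 := by
    rw [← sig_sig (cc ℂ K.Pi (y j)), h10, sig_zero]
  apply cc_inj K
  rw [h12]
  exact (map_zero _).symm

/-- the augmentation -/
noncomputable def aug : (Unit → MonoidAlgebra ℂ K.Pi) →ₗ[ℂ] ℂ :=
  (chi (1 : K.Pi →* ℂ)).toLinearMap ∘ₗ LinearMap.proj ()

theorem aug_apply (x : Unit → MonoidAlgebra ℂ K.Pi) : aug K x = chi 1 (x ()) := rfl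

theorem aug_aug : Aug (aug K) where
  ne := by
    intro h
    have h1 : aug K (fun _ => 1) = 0 := by rw [h]; rfl
    rw [aug_apply, map_one] at h1
    exact one_ne_zero h1
  inv := by
    intro g x hx
    rw [aug_apply] at hx ⊢
    unfold gsm
    rw [map_mul, hx, mul_zero]

theorem genM_exact [Fintype K.V] (x : Unit → MonoidAlgebra ℂ K.Pi) :
    (∃ y, y ᵥ* genM K = x) ↔ aug K x = 0 := by
  have e : ∀ v, (genM K v () : MonoidAlgebra ℂ K.Pi) = MonoidAlgebra.single (PresentedGroup.of v) 1
      - MonoidAlgebra.single 1 ((1 : K.Pi →* ℂ) (PresentedGroup.of v)) := by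
    intro v
    rw [MonoidHom.one_apply, ← MonoidAlgebra.one_def]
    rfl
  constructor
  · rintro ⟨y, rfl⟩
    rw [aug_apply]
    change chi 1 (∑ v, y v * genM K v ()) = 0
    rw [map_sum]
    apply Finset.sum_eq_zero
    intro v _
    rw [map_mul, e, map_sub, chi_single, chi_single, map_one, MonoidHom.one_apply]
    simp
  · intro hx
    obtain ⟨c, hc⟩ := mem_ideal (fun v : K.V => (PresentedGroup.of v : K.Pi))
      (PresentedGroup.closure_range_of _) 1 (x ()) hx
    refine ⟨c, ?_⟩
    funext u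
    change ∑ v, c v * genM K v () = _
    rw [← hc]
    exact Finset.sum_congr rfl fun v _ => by rw [e]

section main
variable [Fintype K.V] [DecidableEq K.V] [Fintype K.R] [DecidableEq K.R]

/-- the bound by the components of the cone -/
theorem asph_cone {X : Type y} [MulAction K.Pi X] [LinearOrder X] (hinv : OrdInv K.Pi X) (x₀ : X)
    {ι : Type*} [Fintype ι] [DecidableEq ι] (s : ι → K.Pi) (hpos : ∀ j, x₀ < s j • x₀)
    (hs : Subgroup.closure (Set.range s) = ⊤) (T : Finset ι)
    (hT : ∀ a, ∃ t ∈ T, Relation.ReflTransGen (AdjX x₀ s) (s a) (s t))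
    (hc : Fintype.card K.R + T.card ≤ Fintype.card K.V) : Asph K := by
  apply asph_of_inj
  apply ker_adj_bot _ T.card _ hc
  have h := ker_one_coneX hinv x₀ (genM K) (rowM K) (aug K) (aug_aug K) (genM_exact K)
    (fox_exact K) s hpos hs T hT
  rw [Fintype.card_unit] at h
  push_cast at h
  linarith

/-- the bound by the number of the generators -/
theorem asph_gen {ι : Type*} [Fintype ι] [DecidableEq ι] (s : ι → K.Pi)
    (hs : Subgroup.closure (Set.range s) = ⊤)
    (hc : Fintype.card K.R + Fintype.card ι ≤ Fintype.card K.V) : Asph K := by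
  apply asph_of_inj
  apply ker_adj_bot _ (Fintype.card ι) _ hc
  have h := ker_one_gen (genM K) (rowM K) (aug K) (aug_aug K) (genM_exact K)
    (fox_exact K) s hs
  rw [Fintype.card_unit] at h
  push_cast at h
  linarith

/-- the bound by the number of the generators, if they are not free -/
theorem asph_gen2 (hZ : NZ K.Pi) {ι : Type*} [Fintype ι] [DecidableEq ι] (s : ι → K.Pi)
    (hs : Subgroup.closure (Set.range s) = ⊤) (hs2 : ¬ Function.Injective (FreeGroup.lift s))
    (hc : Fintype.card K.R + Fintype.card ι ≤ Fintype.card K.V + 1) : Asph K := by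
  have hι : 1 ≤ Fintype.card ι := by
    by_contra hcon
    have h0 : IsEmpty ι := Fintype.card_eq_zero_iff.1 (by omega)
    apply hs2
    intro a b _
    exact Subsingleton.elim _ _
  apply asph_of_inj
  apply ker_adj_bot _ (Fintype.card ι - 1) _ (by omega)
  have h := ker_one hZ (genM K) (rowM K) (aug K) (aug_aug K) (genM_exact K)
    (fox_exact K) s hs hs2
  rw [Fintype.card_unit] at h
  push_cast [Nat.cast_sub hι] at h ⊢
  linarith

end main

end Pool.Agent.V7H25.Asp
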