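import Pool.Agent.V7H25.Asp.Main

set_option autoImplicit false
set_option linter.unusedSectionVars false

/-! The rank of the first homology of a subcomplex of a contractible complex. -/

namespace Pool.Agent.V7H25.Asp

open Pool.Agent.R655.LI

/-- the boundary operator of a subcomplex of a contractible complex is injective -/
theorem bdry_inj_sub {K L : Cx} (i : Sub K L) (hL : L.Contractible) : Function.Injective K.bdry := by
  have hc : ∀ w : FreeGroup K.V, (expSum L.V (FreeGroup.map i.v w)).toAdd =
      Finsupp.mapDomain i.v (expSum K.V w).toAdd := by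
    intro w
    have : (expSum L.V).comp (FreeGroup.map i.v) =
        (AddMonoidHom.toMultiplicative (Finsupp.mapDomain.addMonoidHom i.v)).comp (expSum K.V) := by
      ext v
      simp [expSum]
    exact congrArg Multiplicative.toAdd (DFunLike.congr_fun this w)
  have h : ∀ x, Finsupp.lmapDomain ℤ ℤ i.v (K.bdry x) = L.bdry (Finsupp.lmapDomain ℤ ℤ i.c x) := by
    intro x
    have h1 : (Finsupp.lmapDomain ℤ ℤ i.v).comp K.bdry = L.bdry.comp (Finsupp.lmapDomain ℤ ℤ i.c) := by
      ext1 j
      ext1
      rw [LinearMap.comp_apply, LinearMap.comp_apply, LinearMap.comp_apply, LinearMap.comp_apply]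
      rw [Finsupp.lsingle_apply, Finsupp.lmapDomain_apply, Finsupp.lmapDomain_apply,
        Finsupp.mapDomain_single]
      unfold Cx.bdry
      rw [Finsupp.linearCombination_single, Finsupp.linearCombination_single, one_smul, one_smul,
        ← i.comm, hc]
    exact LinearMap.congr_fun h1 x
  intro a b hab
  have h1 : L.bdry (Finsupp.lmapDomain ℤ ℤ i.c a) = L.bdry (Finsupp.lmapDomain ℤ ℤ i.c b) := by
    rw [← h, ← h, hab]
  exact Finsupp.mapDomain_injective i.c.injective (hL.bdry_inj h1)

/-- The first Betti number: the rank of the abelianised fundamental group. -/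
noncomputable def betti (K : Cx) : ℕ := Module.finrank ℤ (Additive (Abelianization K.Pi))

variable (K : Cx)

/-- the first homology as a quotient of the chains -/
noncomputable def toQ : Additive (Abelianization K.Pi) →+ (K.V →₀ ℤ) ⧸ LinearMap.range K.bdry :=
  MonoidHom.toAdditiveLeft (Abelianization.lift (PresentedGroup.toGroup
    (G := Multiplicative ((K.V →₀ ℤ) ⧸ LinearMap.range K.bdry))
    (f := fun v => Multiplicative.ofAdd ((LinearMap.range K.bdry).mkQ (Finsupp.single v 1))) (by
      rintro _ ⟨j, rfl⟩
      have : FreeGroup.lift (fun v => Multiplicative.ofAdd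
          ((LinearMap.range K.bdry).mkQ (Finsupp.single v 1))) =
          (AddMonoidHom.toMultiplicative (LinearMap.range K.bdry).mkQ.toAddMonoidHom).comp
            (expSum K.V) := by
        ext1 v
        rw [FreeGroup.lift_apply_of, MonoidHom.comp_apply]
        unfold expSum
        rw [FreeGroup.lift_apply_of]
        rfl
      rw [this]
      change Multiplicative.ofAdd ((LinearMap.range K.bdry).mkQ (expSum K.V (K.r j)).toAdd) = 1
      have : (LinearMap.range K.bdry).mkQ (expSum K.V (K.r j)).toAdd = 0 := by
        rw [Submodule.mkQ_apply, Submodule.Quotient.mk_eq_zero]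
        refine ⟨Finsupp.single j 1, ?_⟩
        simp [Cx.bdry]
      rw [this]
      rfl)))

theorem toQ_of (v : K.V) : toQ K (Additive.ofMul (Abelianization.of (PresentedGroup.of v)))
    = (LinearMap.range K.bdry).mkQ (Finsupp.single v 1) := by
  change Multiplicative.toAdd (Abelianization.lift (PresentedGroup.toGroup _)
    (Abelianization.of (PresentedGroup.of v))) = _
  rw [Abelianization.lift_apply_of, PresentedGroup.toGroup.of]
  rfl

/-- the inverse -/
noncomputable def ofC : (K.V →₀ ℤ) →ₗ[ℤ] Additive (Abelianization K.Pi) :=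
  Finsupp.linearCombination ℤ fun v => Additive.ofMul (Abelianization.of (PresentedGroup.of v))

theorem ofC_expSum (w : FreeGroup K.V) : ofC K (expSum K.V w).toAdd
    = Additive.ofMul (Abelianization.of (PresentedGroup.mk (Set.range K.r) w)) := by
  have : (AddMonoidHom.toMultiplicativeLeft (ofC K).toAddMonoidHom).comp (expSum K.V)
      = (Abelianization.of).comp (PresentedGroup.mk (Set.range K.r)) := by
    ext1 v
    rw [MonoidHom.comp_apply, MonoidHom.comp_apply]
    unfold expSum
    rw [FreeGroup.lift_apply_of]
    change Additive.toMul (ofC K (Finsupp.single v 1)) = _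
    unfold ofC
    rw [Finsupp.linearCombination_single, one_smul]
    rfl
  have h := DFunLike.congr_fun this w
  exact congrArg Additive.ofMul h

/-- the inverse on the quotient -/
noncomputable def ofQ : (K.V →₀ ℤ) ⧸ LinearMap.range K.bdry →ₗ[ℤ] Additive (Abelianization K.Pi) :=
  (LinearMap.range K.bdry).liftQ (ofC K) (by
    rintro _ ⟨x, rfl⟩
    rw [LinearMap.mem_ker]
    have : (ofC K).comp K.bdry = 0 := by
      ext1 j
      ext1
      rw [LinearMap.comp_apply, LinearMap.comp_apply, Finsupp.lsingle_apply]
      unfold Cx.bdry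
      rw [Finsupp.linearCombination_single, one_smul, ofC_expSum]
      have h1 : PresentedGroup.mk (Set.range K.r) (K.r j) = 1 := PresentedGroup.one_of_mem ⟨j, rfl⟩
      rw [h1, map_one]
      rfl
    exact LinearMap.congr_fun this x)

theorem ofQ_toQ (x : Additive (Abelianization K.Pi)) : ofQ K (toQ K x) = x := by
  have h : (MonoidHom.id (Abelianization K.Pi)) =
      ((AddMonoidHom.toMultiplicativeLeft (ofQ K).toAddMonoidHom).comp
        (AddMonoidHom.toMultiplicativeRight (toQ K))) := by
    apply Abelianization.hom_ext
    apply PresentedGroup.ext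
    intro v
    change Abelianization.of (PresentedGroup.of v) =
      Additive.toMul (ofQ K (toQ K (Additive.ofMul (Abelianization.of (PresentedGroup.of v)))))
    rw [toQ_of]
    unfold ofQ
    rw [Submodule.mkQ_apply, Submodule.liftQ_apply]
    unfold ofC
    rw [Finsupp.linearCombination_single, one_smul]
    rfl
  have h2 := DFunLike.congr_fun h (Additive.toMul x)
  exact h2.symm

theorem toQ_ofQ (x : (K.V →₀ ℤ) ⧸ LinearMap.range K.bdry) : toQ K (ofQ K x) = x := by
  have h : ((toQ K).toIntLinearMap).comp (ofQ K) = LinearMap.id := by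
    apply Submodule.linearMap_qext
    ext1 v
    ext1
    change toQ K (ofQ K ((LinearMap.range K.bdry).mkQ (Finsupp.single v 1))) = _
    unfold ofQ
    rw [Submodule.mkQ_apply, Submodule.liftQ_apply]
    unfold ofC
    rw [Finsupp.linearCombination_single, one_smul, toQ_of]
    rfl
  exact LinearMap.congr_fun h x

/-- the number of the cells of dimension one of a finite complex without second homology -/
theorem card_eq [Fintype K.V] [Fintype K.R] (h : Function.Injective K.bdry) :
    Fintype.card K.V = Fintype.card K.R + betti K := by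
  have h1 := (LinearMap.range K.bdry).finrank_quotient_add_finrank
  have h2 := LinearMap.finrank_range_of_inj h
  have h3 : Module.finrank ℤ ((K.V →₀ ℤ) ⧸ LinearMap.range K.bdry) = betti K :=
    (LinearEquiv.ofBijective (ofQ K) ⟨fun a b hab => by rw [← toQ_ofQ K a, hab, toQ_ofQ],
      fun y => ⟨toQ K y, ofQ_toQ K y⟩⟩).finrank_eq
  rw [Module.finrank_finsupp_self] at h1 h2
  omega

/-- a basis of the free group on the generators -/
theorem free_rank {ι : Type} [Fintype ι] (s : ι → K.Pi)
    (hs : Subgroup.closure (Set.range s) = ⊤) (hi : Function.Injective (FreeGroup.lift s)) :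
    betti K = Fintype.card ι := by
  have hsurj : Function.Surjective (FreeGroup.lift s) := by
    rw [← MonoidHom.range_eq_top, FreeGroup.range_lift_eq_closure, hs]
  have e1 : FreeGroup ι ≃* K.Pi := MulEquiv.ofBijective _ ⟨hi, hsurj⟩
  have e2 : Additive (Abelianization (FreeGroup ι)) ≃+ Additive (Abelianization K.Pi) :=
    MulEquiv.toAdditive (e1.abelianizationCongr)
  have e3 : FreeAbelianGroup ι ≃+ Additive (Abelianization (FreeGroup ι)) := AddEquiv.refl _
  have e4 : FreeAbelianGroup ι ≃+ (ι →₀ ℤ) := FreeAbelianGroup.equivFinsupp ι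
  have e5 : (ι →₀ ℤ) ≃ₗ[ℤ] Additive (Abelianization K.Pi) :=
    ((e4.symm.trans e3).trans e2).toIntLinearEquiv
  unfold betti
  rw [← e5.finrank_eq, Module.finrank_finsupp_self]

end Pool.Agent.V7H25.Asp
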